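import Pool.Agent.Q104.SignN
import Pool.Agent.Q104.GapTest

/-!
# MP_8e2f96_co: the spectral gap is bounded by the magneto-spectral height

There is an absolute constant `c` with `λ₂(G) ≤ c ν(G)` for all finite connected graphs of minimum
degree at least two.
-/

set_option autoImplicit false

namespace Pool.Agent.Results.MP_8e2f96_co.GapHeight

open Finset Pool.Agent.Q104.Mag Pool.Agent.Q104.Lam2 Pool.Agent.Q104.Chain

variable {V : Type} [Fintype V] [DecidableEq V] [Nonempty V] {G : SimpleGraph V}
  [DecidableRel G.Adj]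

/-- lower bound for the height: chains of vertices of degree two have at most `m` vertices -/
lemma nu_ge_chain (hG : ∀ v, 2 ≤ G.degree v) (m : ℕ)
    (hm : ∀ n ≤ Fintype.card V, ∀ v u, G.Adj v u → T G n v u ≤ m) :
    1 / (36 * ((m : ℝ) + 1) ^ 2) ≤ nu G := by
  set M : ℝ := (m : ℝ) + 1 with hM
  have hM1 : 1 ≤ M := by
    have : (0 : ℝ) ≤ m := Nat.cast_nonneg m
    rw [hM]; linarith
  have hM0 : 0 < M := by linarith
  set θ : ℝ := 1 / (36 * M ^ 2) with hθ
  have hθ0 : 0 < θ := by positivity
  set b : ℕ → V → V → ℝ := fun n w v => 1 / (4 * M + 2 * (T G n w v : ℝ) + 1) with hb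
  set κ : ℕ → V → V → ℝ := fun n v u => 1 + 1 / (4 * M + 2 * (T G n v u : ℝ)) with hκ
  have hinv : ∀ n v u, 1 / κ n v u = 1 - b n v u := by
    intro n v u
    simp only [hκ, hb]
    have h1 : 0 < 4 * M + 2 * (T G n v u : ℝ) := by positivity
    field_simp
    ring
  have hbge : ∀ n ≤ Fintype.card V, ∀ w v, G.Adj w v → 1 / (6 * M) ≤ b n w v := by
    intro n hn w v hwv
    simp only [hb]
    have h1 : (T G n w v : ℝ) ≤ m := by exact_mod_cast hm n hn w v hwv
    apply one_div_le_one_div_of_le (by positivity)
    rw [hM]; linarith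
  have hbpos : ∀ n w v, 0 < b n w v := by
    intro n w v
    simp only [hb]
    positivity
  have hθb : θ ≤ 1 / (6 * M) := by
    rw [hθ]
    apply one_div_le_one_div_of_le (by positivity)
    nlinarith
  apply nu_ge_of_ratios_n G θ κ
  · intro n v u _
    simp only [hκ]
    positivity
  · intro n hn v u hvu
    have hsum : ∑ w ∈ (G.neighborFinset v).erase u, 1 / κ n w v =
        ((G.degree v : ℝ) - 1) - ∑ w ∈ (G.neighborFinset v).erase u, b n w v := by
      simp only [hinv]
      rw [Finset.sum_sub_distrib, Finset.sum_const, nsmul_eq_mul, mul_one,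
        Finset.card_erase_of_mem ((SimpleGraph.mem_neighborFinset _ _ _).2 hvu),
        SimpleGraph.card_neighborFinset_eq_degree]
      have h1 : 1 ≤ G.degree v := le_trans (by omega) (hG v)
      push_cast [Nat.cast_sub h1]
      ring
    rw [hsum]
    suffices h : κ (n + 1) v u - 1 ≤ ∑ w ∈ (G.neighborFinset v).erase u, b n w v - θ by linarith
    by_cases hv : G.degree v = 2
    · -- degree two
      set w := oth G v u with hw
      obtain ⟨hw1, hw2⟩ := oth_spec (G := G) (u := u) (hG v)
      have hT : T G (n + 1) v u = T G n w v + 1 := by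
        simp only [T]
        rw [if_pos hv]
      have hTm : T G n w v + 1 ≤ m := by
        rw [← hT]
        exact hm (n + 1) (by omega) v u hvu
      have hmem : w ∈ (G.neighborFinset v).erase u :=
        Finset.mem_erase.2 ⟨hw2, (SimpleGraph.mem_neighborFinset _ _ _).2 hw1⟩
      have hge : b n w v ≤ ∑ w ∈ (G.neighborFinset v).erase u, b n w v :=
        Finset.single_le_sum (f := fun w => b n w v) (fun x _ => (hbpos n x v).le) hmem
      have hk : κ (n + 1) v u - 1 ≤ b n w v - θ := by
        simp only [hκ, hb]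
        rw [hT]
        push_cast
        set t : ℝ := (T G n w v : ℝ) with ht
        have ht0 : 0 ≤ t := Nat.cast_nonneg _
        have htm : t + 1 ≤ m := by rw [ht]; exact_mod_cast hTm
        have e1 : 1 / (4 * M + 2 * t + 1) - 1 / (4 * M + 2 * (t + 1)) =
            1 / ((4 * M + 2 * t + 1) * (4 * M + 2 * (t + 1))) := by
          have h1 : 4 * M + 2 * t + 1 ≠ 0 := by positivity
          have h2 : 4 * M + 2 * (t + 1) ≠ 0 := by positivity
          field_simp
          ring
        have e2 : θ ≤ 1 / ((4 * M + 2 * t + 1) * (4 * M + 2 * (t + 1))) := by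
          rw [hθ]
          apply one_div_le_one_div_of_le (by positivity)
          have h1 : 4 * M + 2 * t + 1 ≤ 6 * M := by rw [hM]; linarith
          have h2 : 4 * M + 2 * (t + 1) ≤ 6 * M := by rw [hM]; linarith
          calc (4 * M + 2 * t + 1) * (4 * M + 2 * (t + 1)) ≤ (6 * M) * (6 * M) := by
                apply mul_le_mul h1 h2 (by positivity) (by positivity)
            _ = 36 * M ^ 2 := by ring
        linarith
      linarith
    · -- degree at least three
      have hv3 : 3 ≤ G.degree v := by have := hG v; omega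
      have hT : T G (n + 1) v u = 0 := by
        simp only [T]
        rw [if_neg hv]
      have hge : 2 * (1 / (6 * M)) ≤ ∑ w ∈ (G.neighborFinset v).erase u, b n w v := by
        have hcard : 2 ≤ ((G.neighborFinset v).erase u).card := by
          rw [Finset.card_erase_of_mem ((SimpleGraph.mem_neighborFinset _ _ _).2 hvu),
            SimpleGraph.card_neighborFinset_eq_degree]
          omega
        have h1 : ((G.neighborFinset v).erase u).card • (1 / (6 * M)) ≤
            ∑ w ∈ (G.neighborFinset v).erase u, b n w v := by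
          apply Finset.card_nsmul_le_sum
          intro w hw
          have := Finset.mem_of_mem_erase hw
          exact hbge n (by omega) w v ((SimpleGraph.mem_neighborFinset _ _ _).1 this).symm
        rw [nsmul_eq_mul] at h1
        have h2 : (2 : ℝ) ≤ ((G.neighborFinset v).erase u).card := by exact_mod_cast hcard
        have h3 : 0 < 1 / (6 * M) := by positivity
        nlinarith
      have hk : κ (n + 1) v u - 1 ≤ 2 * (1 / (6 * M)) - θ := by
        simp only [hκ]
        rw [hT, hθ]
        have e1 : (2 * (1 / (6 * M)) - 1 / (36 * M ^ 2)) - (1 + 1 / (4 * M + 2 * ((0 : ℕ) : ℝ)) - 1)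
            = (3 * M - 1) / (36 * M ^ 2) := by
          push_cast
          field_simp
          ring
        have e2 : 0 ≤ (3 * M - 1) / (36 * M ^ 2) := by
          apply div_nonneg _ (by positivity)
          linarith
        linarith
      linarith
  · intro n hn v
    have hsum : ∑ w ∈ G.neighborFinset v, 1 / κ n w v =
        (G.degree v : ℝ) - ∑ w ∈ G.neighborFinset v, b n w v := by
      simp only [hinv]
      rw [Finset.sum_sub_distrib, Finset.sum_const, nsmul_eq_mul, mul_one,
        SimpleGraph.card_neighborFinset_eq_degree]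
    rw [hsum]
    have hpos : 0 < (G.neighborFinset v).card := by
      rw [SimpleGraph.card_neighborFinset_eq_degree]
      have := hG v; omega
    obtain ⟨w, hw⟩ := Finset.card_pos.1 hpos
    have hge : b n w v ≤ ∑ w ∈ G.neighborFinset v, b n w v :=
      Finset.single_le_sum (f := fun w => b n w v) (fun x _ => (hbpos n x v).le) hw
    have := hbge n (by omega) w v ((SimpleGraph.mem_neighborFinset _ _ _).1 hw).symm
    linarith

/-- all degrees at least three -/
lemma nu_ge_three (δ : ℕ) (hδ : 3 ≤ δ) (hG : ∀ v, δ ≤ G.degree v) : (δ : ℝ) / 18 ≤ nu G := by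
  set s : ℝ := Real.sqrt (δ - 1) with hs
  have hd' : (3 : ℝ) ≤ δ := by exact_mod_cast hδ
  have hs2 : s ^ 2 = δ - 1 := Real.sq_sqrt (by linarith)
  have hs1 : 1 ≤ s := by
    rw [hs]
    apply Real.one_le_sqrt.2
    linarith
  have hs0 : 0 < s := by linarith
  have hinv : 1 / s ≤ 1 := by
    rw [div_le_one hs0]; exact hs1
  have hss : (δ - 1 : ℝ) / s = s := by
    rw [← hs2]; field_simp
  have hds : (δ : ℝ) / s = s + 1 / s := by
    rw [show (δ : ℝ) = (δ - 1) + 1 by ring, add_div, hss]
  have h1 : (δ : ℝ) - 2 * s ≤ nu G := by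
    apply nu_ge_of_ratios G _ (fun _ _ => s) (fun _ _ _ => hs0)
    · intro v u hvu
      rw [Finset.sum_const, nsmul_eq_mul, Finset.card_erase_of_mem
        ((SimpleGraph.mem_neighborFinset _ _ _).2 hvu), SimpleGraph.card_neighborFinset_eq_degree]
      have hD : (δ : ℝ) ≤ G.degree v := by exact_mod_cast hG v
      have h1 : 1 ≤ G.degree v := le_trans (by omega) (hG v)
      push_cast [Nat.cast_sub h1]
      have e : ((G.degree v : ℝ) - 1) * (1 / s) = (G.degree v - δ) * (1 / s) + s := by
        have : ((δ : ℝ) - 1) * (1 / s) = s := by rw [mul_one_div]; exact hss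
        linear_combination this
      rw [e]
      nlinarith [mul_nonneg (sub_nonneg.2 hD) (sub_nonneg.2 hinv)]
    · intro v
      rw [Finset.sum_const, nsmul_eq_mul, SimpleGraph.card_neighborFinset_eq_degree]
      have hD : (δ : ℝ) ≤ G.degree v := by exact_mod_cast hG v
      have e : (G.degree v : ℝ) * (1 / s) = (G.degree v - δ) * (1 / s) + (s + 1 / s) := by
        have : (δ : ℝ) * (1 / s) = s + 1 / s := by rw [mul_one_div]; exact hds
        linear_combination this
      rw [e]
      nlinarith [mul_nonneg (sub_nonneg.2 hD) (sub_nonneg.2 hinv)]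
  have h2 : s ≤ 17 / 36 * δ := by
    rw [hs, Real.sqrt_le_left (by positivity)]
    nlinarith
  linarith

omit [Nonempty V] in
lemma two_le_card (hG : ∀ v, 2 ≤ G.degree v) (v : V) : 2 ≤ Fintype.card V := by
  have h1 := hG v
  have h2 := G.degree_lt_card_verts v
  omega

/-- **The bound with an absolute constant.** -/
theorem gap_le (hc : G.Connected) (hG : ∀ v, 2 ≤ G.degree v) :
    lam2 G ≤ 279936 * nu G := by
  classical
  -- longest chain
  set P : Finset (ℕ × V × V) :=
    ((range (Fintype.card V + 1)) ×ˢ (univ : Finset (V × V))).filter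
      (fun x => G.Adj x.2.1 x.2.2) with hP
  have hPmem : ∀ n v u, (n, v, u) ∈ P ↔ n ≤ Fintype.card V ∧ G.Adj v u := by
    intro n v u
    simp only [hP, Finset.mem_filter, Finset.mem_product, Finset.mem_range, Finset.mem_univ,
      and_true]
    constructor
    · rintro ⟨h1, h2⟩; exact ⟨by omega, h2⟩
    · rintro ⟨h1, h2⟩; exact ⟨by omega, h2⟩
  have hne : P.Nonempty := by
    obtain ⟨v⟩ := (inferInstance : Nonempty V)
    have h1 : 0 < G.degree v := by have := hG v; omega
    rw [← SimpleGraph.card_neighborFinset_eq_degree] at h1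
    obtain ⟨u, hu⟩ := Finset.card_pos.1 h1
    exact ⟨(0, v, u), (hPmem 0 v u).2 ⟨Nat.zero_le _, (SimpleGraph.mem_neighborFinset _ _ _).1 hu⟩⟩
  obtain ⟨⟨n, v, u⟩, hmem, hmax⟩ := Finset.exists_max_image P (fun x => T G x.1 x.2.1 x.2.2) hne
  obtain ⟨hn, hvu⟩ := (hPmem n v u).1 hmem
  set m := T G n v u with hm
  have hm' : ∀ n ≤ Fintype.card V, ∀ v u, G.Adj v u → T G n v u ≤ m := by
    intro n' hn' v' u' h
    exact hmax (n', v', u') ((hPmem n' v' u').2 ⟨hn', h⟩)
  have hlow := nu_ge_chain hG m hm'
  have hnu0 : 0 < nu G := lt_of_lt_of_le (by positivity) hlow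
  rcases Nat.eq_zero_or_pos m with hm0 | hm1
  · -- all degrees at least three
    have h3 : ∀ w, 3 ≤ G.degree w := by
      intro w
      by_contra hw
      push Not at hw
      have hw2 : G.degree w = 2 := by have := hG w; omega
      have h1 : 0 < G.degree w := by omega
      rw [← SimpleGraph.card_neighborFinset_eq_degree] at h1
      obtain ⟨x, hx⟩ := Finset.card_pos.1 h1
      have hcard : 1 ≤ Fintype.card V := Fintype.card_pos
      have := hm' 1 hcard w x ((SimpleGraph.mem_neighborFinset _ _ _).1 hx)
      simp only [T] at this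
      rw [if_pos hw2] at this
      omega
    obtain ⟨w, hw⟩ := Finset.exists_min_image (univ : Finset V) (fun w => G.degree w)
      Finset.univ_nonempty
    have h4 := nu_ge_three (G := G) (G.degree w) (h3 w) (fun x => hw.2 x (Finset.mem_univ x))
    have h5 := lam2_le_degree G w (two_le_card hG w)
    linarith
  · have hdeg := deg_chain (G := G) n v u
    have hv2 : G.degree v = 2 := hdeg 0 hm1
    have h4 : lam2 G ≤ 4 := by
      have := lam2_le_degree G v (two_le_card hG v)
      rw [hv2] at this
      push_cast at this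
      linarith
    have hup : lam2 G * ((m : ℝ) + 1) ^ 2 ≤ 7776 := by
      rcases Nat.lt_or_ge m 5 with h5 | h5
      · have h6 : (m : ℝ) ≤ 4 := by
          have : m ≤ 4 := by omega
          exact_mod_cast this
        have h7 : (0 : ℝ) ≤ m := Nat.cast_nonneg m
        have h8 : ((m : ℝ) + 1) ^ 2 ≤ 25 := by nlinarith
        nlinarith [sq_nonneg ((m : ℝ) + 1)]
      · set k := (m - 1) / 4 with hk
        have hk1 : 1 ≤ k := by omega
        have hk2 : 4 * k + 1 ≤ m := by omega
        have hk3 : m + 1 ≤ 9 * k := by omega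
        have h6 := lam2_le_chain hG hvu hk1 (fun i hi => hdeg i (by omega))
          (fun j hj i hij => chain_inj hG hc hvu hn j (by omega) i hij)
        have h7 : (m : ℝ) + 1 ≤ 9 * k := by exact_mod_cast hk3
        have h8 : ((m : ℝ) + 1) ^ 2 ≤ 81 * (k : ℝ) ^ 2 := by
          have : (0 : ℝ) ≤ (m : ℝ) + 1 := by positivity
          nlinarith
        by_cases hneg : lam2 G < 0
        · have : lam2 G * ((m : ℝ) + 1) ^ 2 ≤ 0 :=
            mul_nonpos_of_nonpos_of_nonneg hneg.le (by positivity)
          linarith
        · push Not at hneg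
          nlinarith [mul_le_mul_of_nonneg_left h8 hneg]
    have hM : 0 < ((m : ℝ) + 1) ^ 2 := by positivity
    have h9 : lam2 G ≤ 7776 / ((m : ℝ) + 1) ^ 2 := by
      rw [le_div_iff₀ hM]; exact hup
    have h10 : 7776 / ((m : ℝ) + 1) ^ 2 = 279936 * (1 / (36 * ((m : ℝ) + 1) ^ 2)) := by
      field_simp
      norm_num
    rw [h10] at h9
    linarith

/-- (1) There is an absolute constant `c` such that `λ₂(G) ≤ c ν(G)` for all finite connected
graphs of minimum degree at least two; (2) in particular, for every `d ≥ 2` there is such a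
constant for the finite connected graphs of minimum degree at least `d`. -/
theorem result :
    (∃ c : ℝ, 0 < c ∧ ∀ (V : Type) [Fintype V] [DecidableEq V] (G : SimpleGraph V)
      [DecidableRel G.Adj], G.Connected → (∀ v, 2 ≤ G.degree v) → lam2 G ≤ c * nu G) ∧
    ∀ d : ℕ, 2 ≤ d → ∃ c : ℝ, 0 < c ∧ ∀ (V : Type) [Fintype V] [DecidableEq V]
      (G : SimpleGraph V) [DecidableRel G.Adj], G.Connected → (∀ v, d ≤ G.degree v) →
        lam2 G ≤ c * nu G := by
  refine ⟨⟨279936, by norm_num, ?_⟩, ?_⟩
  · intro V _ _ G _ hc hG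
    have := hc.nonempty
    exact gap_le hc hG
  · intro d hd
    refine ⟨279936, by norm_num, ?_⟩
    intro V _ _ G _ hc hG
    have := hc.nonempty
    exact gap_le hc (fun v => le_trans hd (hG v))

end Pool.Agent.Results.MP_8e2f96_co.GapHeight
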